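import Pool.Agent.Helper41.LF.GoalsA

/-!
# Project LF (MP_c307ca_nt), packet MEAS: the measure bound
-/

set_option autoImplicit false

namespace Pool.Agent.Helper41.LF

open MeasureTheory Finset

theorem meas_chain (d : ℕ) (T F : Finset (Submodule ℚ (Fin (d + 1) → ℚ))) (hT : ∀ W ∈ T, W ≠ ⊥)
    (hF : F ⊆ T) (hc : IsChain (· ≤ ·) (F : Set (Submodule ℚ (Fin (d + 1) → ℚ)))) :
    F.card ≤ d + 1 := by
  have h : F.card ≤ (Finset.Icc 1 (d + 1)).card := by
    refine Finset.card_le_card_of_injOn (fun W => Module.finrank ℚ W) ?_ ?_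
    · intro W hW
      have h1 : W ≠ ⊥ := hT W (hF hW)
      have h2 : 1 ≤ Module.finrank ℚ W := Submodule.one_le_finrank_iff.2 h1
      have h3 : Module.finrank ℚ W ≤ d + 1 := by
        have := Submodule.finrank_le W
        simpa using this
      simp only [Finset.coe_Icc, Set.mem_Icc]
      exact ⟨h2, h3⟩
    · intro W hW W' hW' he
      by_contra hne
      rcases hc hW hW' hne with h1 | h1
      · exact hne (Submodule.eq_of_le_of_finrank_eq h1 he)
      · exact hne (Submodule.eq_of_le_of_finrank_eq h1 he.symm).symm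
  simpa using h

theorem spans_ne {d : ℕ} (V : Finset (Fin (d + 1) → ℤ)) (W : Submodule ℚ (Fin (d + 1) → ℚ))
    (h : W ∈ spans V) : W ≠ ⊥ := by
  unfold spans at h
  exact Finset.ne_of_mem_erase h

theorem thm_MEAS (hP : S_PSI) (hR : S_REM) (hG : S_GRW) (hN : S_NDC) (hM : S_MRK) : S_MEAS := by
  intro d R hd hR1
  -- constants
  obtain ⟨D, hD⟩ : ∃ D : ℕ, D = d * (d + 1) := ⟨_, rfl⟩
  have hD1 : 1 ≤ D := by rw [hD]; nlinarith
  have hDR : (1 : ℝ) ≤ D := by exact_mod_cast hD1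
  obtain ⟨C0, hC0, hrem⟩ := hR D hD1
  obtain ⟨G0, hG0, hgrw⟩ := hG D
  obtain ⟨N0, hN0⟩ : ∃ N0 : ℝ, N0 = (((d + 1) ^ (d + 1) : ℕ) : ℝ) := ⟨_, rfl⟩
  have hN01 : 1 ≤ N0 := by
    rw [hN0]
    exact_mod_cast Nat.one_le_pow _ _ (Nat.succ_pos d)
  obtain ⟨G, hGd⟩ : ∃ G : ℝ, G = N0 * G0 := ⟨_, rfl⟩
  have hG1 : 1 ≤ G := by rw [hGd]; nlinarith
  obtain ⟨c1, hc1⟩ : ∃ c1 : ℝ, c1 = ((d : ℝ) + 1) ^ 2 * G := ⟨_, rfl⟩
  have hdR : (1 : ℝ) ≤ (d : ℝ) := by exact_mod_cast hd
  have hc11 : 1 ≤ c1 := by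
    rw [hc1]
    have : (1 : ℝ) ≤ ((d : ℝ) + 1) ^ 2 := by nlinarith
    nlinarith
  have hc10 : 0 < c1 := by linarith
  obtain ⟨R', hR'⟩ : ∃ R' : ℝ, R' = max R d := ⟨_, rfl⟩
  have hR'R : R ≤ R' := by rw [hR']; exact le_max_left _ _
  have hR'd : (d : ℝ) ≤ R' := by rw [hR']; exact le_max_right _ _
  have hR'1 : 1 ≤ R' := hR1.trans hR'R
  refine ⟨4 * R * c1 + 2 ^ (d + 2) * C0 * (2 * c1 * N0) * (2 * R'), 1 / (((d : ℝ) + 1) * D),
    by positivity, by positivity, ?_⟩
  intro B τ hB hτ hτ1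
  have hBR : (1 : ℝ) ≤ (B : ℝ) := by exact_mod_cast hB
  obtain ⟨q, hq⟩ : ∃ q : ℝ, q = ((B : ℝ) * τ ^ d) ^ (((d + 1 : ℕ) : ℝ)⁻¹) := ⟨_, rfl⟩
  have hBτ : 0 < (B : ℝ) * τ ^ d := by positivity
  have hq0 : 0 < q := by rw [hq]; positivity
  have hqp : q ^ (d + 1) = (B : ℝ) * τ ^ d := by
    rw [hq]
    exact Real.rpow_inv_natCast_pow hBτ.le (Nat.succ_ne_zero d)
  have hqθ : ((B : ℝ) * τ ^ d) ^ (1 / (((d : ℝ) + 1) * D)) = q ^ (1 / (D : ℝ)) := by
    rw [hq, ← Real.rpow_mul hBτ.le]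
    congr 1
    push_cast
    field_simp
  rw [hqθ]
  have hsub : {x : ℝ | x ∈ Set.Icc (-R) R ∧ ∃ b : ℕ, 1 ≤ b ∧ b ≤ B ∧ Near d τ x b} ⊆
      Set.Icc (-R) R := fun x hx => hx.1
  obtain ⟨ε, hε⟩ : ∃ ε : ℝ, ε = c1 * (2 * q) := ⟨_, rfl⟩
  have hε0 : 0 < ε := by rw [hε]; positivity
  have hX0 : 0 ≤ 2 ^ (d + 2) * C0 * (2 * c1 * N0) * (2 * R') := by positivity
  by_cases hε1 : 1 < ε
  · -- trivial case
    refine (measure_mono hsub).trans ?_
    rw [Real.volume_Icc]
    apply ENNReal.ofReal_le_ofReal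
    have h1 : 1 / (2 * c1) ≤ q := by
      rw [div_le_iff₀ (by positivity)]
      rw [hε] at hε1
      nlinarith
    have h2 : 1 / (2 * c1) ≤ q ^ (1 / (D : ℝ)) := by
      have h3 : (1 / (2 * c1)) ^ (1 / (D : ℝ)) ≤ q ^ (1 / (D : ℝ)) :=
        Real.rpow_le_rpow (by positivity) h1 (by positivity)
      have h4 : (1 / (2 * c1)) ^ (1 : ℝ) ≤ (1 / (2 * c1)) ^ (1 / (D : ℝ)) := by
        apply Real.rpow_le_rpow_of_exponent_ge (by positivity)
        · rw [div_le_one (by positivity)]; linarith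
        · rw [div_le_one (by positivity)]; exact hDR
      rw [Real.rpow_one] at h4
      exact h4.trans h3
    have h5 : 0 ≤ q ^ (1 / (D : ℝ)) := by positivity
    calc R - -R = 4 * R * c1 * (1 / (2 * c1)) := by field_simp; ring
      _ ≤ 4 * R * c1 * q ^ (1 / (D : ℝ)) := by gcongr
      _ ≤ (4 * R * c1 + 2 ^ (d + 2) * C0 * (2 * c1 * N0) * (2 * R')) * q ^ (1 / (D : ℝ)) := by
          rw [add_mul]
          have := mul_nonneg hX0 h5
          linarith
  · -- main case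
    push Not at hε1
    obtain ⟨a, ha⟩ : ∃ a : ℝ, a = q / B := ⟨_, rfl⟩
    obtain ⟨K, hK⟩ : ∃ K : ℝ, K = q / τ := ⟨_, rfl⟩
    have ha0 : 0 < a := by rw [ha]; positivity
    have hτq : τ ≤ q := by
      have h1 : τ ^ (d + 1) ≤ q ^ (d + 1) := by
        rw [hqp, pow_succ, mul_comm]
        have : τ ^ d * 1 ≤ τ ^ d * B := by gcongr
        have h2 : τ * τ ^ d ≤ 1 * τ ^ d := by gcongr
        nlinarith [pow_pos hτ d]
      exact le_of_pow_le_pow_left₀ (Nat.succ_ne_zero d) hq0.le h1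
    have hK1 : 1 ≤ K := by
      rw [hK, le_div_iff₀ hτ]
      linarith
    have hK0 : 0 < K := by linarith
    have haK : a * K ^ d = 1 := by
      rw [ha, hK, div_pow]
      have h1 : q / B * (q ^ d / τ ^ d) = q ^ (d + 1) / (B * τ ^ d) := by
        rw [pow_succ]
        field_simp
      rw [h1, hqp, div_self hBτ.ne']
    obtain ⟨Ψ, hΨ⟩ := hP d a K hd ha0 hK1 haK.ge
    obtain ⟨δ, hδ⟩ : ∃ δ : ℝ, δ = C0 * (ε * N0) ^ (1 / (D : ℝ)) := ⟨_, rfl⟩
    have hδ0 : 0 ≤ δ := by rw [hδ]; positivity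
    have hcont : ∀ W, Continuous (Ψ W) := by
      intro W
      obtain ⟨ι, _, f, -, -, hf⟩ := hΨ.poly W
      have : Ψ W = fun x => ∑ r, |(f r).eval x| := funext hf
      rw [this]
      exact continuous_finsetSum _ fun r _ => ((f r).continuous).abs
    have hgood : ∀ W, ∀ u v : ℝ, u < v → (∃ y ∈ Set.Icc u v, 1 ≤ Ψ W y) →
        volume {x : ℝ | x ∈ Set.Icc u v ∧ Ψ W x < ε} ≤ ENNReal.ofReal (δ * (v - u)) := by
      intro W u v huv hy
      obtain ⟨y, hy, hy1⟩ := hy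
      obtain ⟨ι, _, f, hcard, hdeg, hf⟩ := hΨ.poly W
      have hcard' : (Fintype.card ι : ℝ) ≤ N0 := by
        rw [hN0]; exact_mod_cast hcard
      have hr : ∃ r, 1 / N0 ≤ |(f r).eval y| := by
        by_contra hcon
        push Not at hcon
        rw [hf y] at hy1
        rcases isEmpty_or_nonempty ι with hι | hι
        · rw [Finset.univ_eq_empty, Finset.sum_empty] at hy1
          linarith
        · have h1 : ∑ r, |(f r).eval y| < ∑ _r : ι, 1 / N0 :=
            Finset.sum_lt_sum_of_nonempty Finset.univ_nonempty fun r _ => hcon r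
          rw [Finset.sum_const, Finset.card_univ, nsmul_eq_mul] at h1
          have h2 : (Fintype.card ι : ℝ) * (1 / N0) ≤ N0 * (1 / N0) := by gcongr
          have h3 : N0 * (1 / N0) = 1 := by field_simp
          linarith
      obtain ⟨r, hr⟩ := hr
      have h1 := hrem (f r) (by rw [hD]; exact hdeg r) u v (1 / N0) ε huv (by positivity)
        ⟨y, hy, hr⟩
      have h2 : {x : ℝ | x ∈ Set.Icc u v ∧ Ψ W x < ε} ⊆
          {x : ℝ | x ∈ Set.Icc u v ∧ |(f r).eval x| < ε} := by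
        intro x hx
        refine ⟨hx.1, lt_of_le_of_lt ?_ hx.2⟩
        rw [hf x]
        exact Finset.single_le_sum (f := fun r => |(f r).eval x|) (fun _ _ => abs_nonneg _)
          (Finset.mem_univ r)
      refine (measure_mono h2).trans (h1.trans (le_of_eq ?_))
      rw [hδ, div_div_eq_mul_div, div_one]
    have hgrow : ∀ W, ∀ u v u' v' : ℝ, u < v → u ≤ u' → v' ≤ v → v' - u' = (v - u) / 2 →
        (∀ y ∈ Set.Icc u' v', Ψ W y < 1) → ∀ y ∈ Set.Icc u v, Ψ W y ≤ G := by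
      intro W u v u' v' huv hu hv hh hlt y hy
      obtain ⟨ι, _, f, hcard, hdeg, hf⟩ := hΨ.poly W
      have hcard' : (Fintype.card ι : ℝ) ≤ N0 := by
        rw [hN0]; exact_mod_cast hcard
      rw [hf y]
      have h1 : ∀ r, |(f r).eval y| ≤ G0 := by
        intro r
        have h2 := hgrw (f r) (by rw [hD]; exact hdeg r) u v u' v' 1 huv hu hv hh ?_ y hy
        · rwa [mul_one] at h2
        · intro z hz
          have h3 := hlt z hz
          rw [hf z] at h3
          have h4 : |(f r).eval z| ≤ ∑ r, |(f r).eval z| :=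
            Finset.single_le_sum (f := fun r => |(f r).eval z|) (fun _ _ => abs_nonneg _)
              (Finset.mem_univ r)
          linarith
      calc ∑ r, |(f r).eval y| ≤ ∑ _r : ι, G0 := Finset.sum_le_sum fun r _ => h1 r
        _ = Fintype.card ι * G0 := by rw [Finset.sum_const, Finset.card_univ, nsmul_eq_mul]
        _ ≤ N0 * G0 := by gcongr
        _ = G := hGd.symm
    -- the finite set of vectors
    obtain ⟨N1, hN1⟩ : ∃ N1 : ℤ, N1 = ⌈(B : ℝ) * (R' ^ d + 1) + 1⌉ := ⟨_, rfl⟩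
    have hN1r : (B : ℝ) * (R' ^ d + 1) + 1 ≤ N1 := by rw [hN1]; exact Int.le_ceil _
    obtain ⟨V, hV⟩ : ∃ V : Finset (Fin (d + 1) → ℤ),
      V = Fintype.piFinset fun _ => Finset.Icc (-N1) N1 := ⟨_, rfl⟩
    have hneg : -R' < R' := by linarith
    have hndc := hN (Submodule ℚ (Fin (d + 1) → ℚ)) Ψ ε G δ hδ0 hcont hgood hgrow (d + 1)
      (spans V) (fun F hF hc => meas_chain d (spans V) F (spans_ne V) hF hc) (-R') R' hneg
      (by
        intro W hW
        obtain ⟨m, hm, hm1⟩ := hΨ.one W (spans_ne V W hW)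
        refine ⟨(m : ℝ), ⟨?_, ?_⟩, hm1⟩
        · have : (0 : ℝ) ≤ m := by positivity
          linarith
        · have : (m : ℝ) ≤ d := by exact_mod_cast hm
          linarith)
    have hincl : {x : ℝ | x ∈ Set.Icc (-R) R ∧ ∃ b : ℕ, 1 ≤ b ∧ b ≤ B ∧ Near d τ x b} ⊆
        {x : ℝ | x ∈ Set.Icc (-R') R' ∧ ¬ Marked (spans V) Ψ ε G x} := by
      rintro x ⟨hx, b, hb1, hbB, hnear⟩
      refine ⟨⟨by linarith [hx.1], by linarith [hx.2]⟩, fun hmark => ?_⟩
      have hxR : |x| ≤ R' := (abs_le.2 hx).trans hR'R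
      have hbR : (b : ℝ) ≤ B := by exact_mod_cast hbB
      have hb0 : (1 : ℝ) ≤ b := by exact_mod_cast hb1
      choose s hs using hnear
      have hsb : ∀ i, |(s i : ℝ)| ≤ B * R' ^ d + 1 := by
        intro i
        have h1 : |(b : ℝ) * x ^ ((i : ℕ) + 1)| ≤ B * R' ^ d := by
          rw [abs_mul, abs_pow, abs_of_nonneg (by positivity : (0 : ℝ) ≤ (b : ℝ))]
          have h2 : |x| ^ ((i : ℕ) + 1) ≤ R' ^ d := by
            calc |x| ^ ((i : ℕ) + 1) ≤ R' ^ ((i : ℕ) + 1) := by gcongr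
              _ ≤ R' ^ d := pow_le_pow_right₀ hR'1 i.2
          exact mul_le_mul hbR h2 (by positivity) (by positivity)
        have h3 := hs i
        have h4 : |(s i : ℝ)| ≤ |(b : ℝ) * x ^ ((i : ℕ) + 1)| +
            |(b : ℝ) * x ^ ((i : ℕ) + 1) - s i| := by
          have h5 : (s i : ℝ) = (b : ℝ) * x ^ ((i : ℕ) + 1) -
              ((b : ℝ) * x ^ ((i : ℕ) + 1) - s i) := by ring
          calc |(s i : ℝ)| = |(b : ℝ) * x ^ ((i : ℕ) + 1) -
              ((b : ℝ) * x ^ ((i : ℕ) + 1) - s i)| := by rw [← h5]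
            _ ≤ _ := abs_sub _ _
        linarith
      have hRd1 : 1 ≤ R' ^ d := one_le_pow₀ hR'1
      obtain ⟨w, hw⟩ : ∃ w : Fin (d + 1) → ℤ, w = Fin.cons (b : ℤ) s := ⟨_, rfl⟩
      have hw0 : w 0 = (b : ℤ) := by rw [hw, Fin.cons_zero]
      have hws : ∀ i, w (Fin.succ i) = s i := by intro i; rw [hw, Fin.cons_succ]
      have hwV : w ∈ V := by
        rw [hV, Fintype.mem_piFinset]
        intro i
        rw [Finset.mem_Icc, ← abs_le]
        have h6 : (|(w i : ℤ)| : ℝ) ≤ N1 := by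
          refine Fin.cases ?_ (fun i => ?_) i
          · rw [hw0]
            push_cast
            rw [abs_of_nonneg (by positivity : (0 : ℝ) ≤ (b : ℝ))]
            have h7 : (B : ℝ) * 1 ≤ B * (R' ^ d + 1) := by
              have : (1 : ℝ) ≤ R' ^ d + 1 := by linarith
              gcongr
            linarith
          · rw [hws]
            have h8 := hsb i
            have h9 : (B : ℝ) * R' ^ d ≤ B * (R' ^ d + 1) := by
              have : R' ^ d ≤ R' ^ d + 1 := by linarith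
              gcongr
            linarith
        exact_mod_cast h6
      have hwne : w ≠ 0 := by
        intro h0
        have h1 : w 0 = 0 := by rw [h0]; rfl
        rw [hw0] at h1
        have : b = 0 := by exact_mod_cast h1
        omega
      have hεr : ε / (((d : ℝ) + 1) ^ 2 * G) = 2 * q := by
        rw [← hc1, hε, mul_div_cancel_left₀ _ hc10.ne']
      refine hM d a K Ψ hΨ V ε G x hε0 hε1 hG1 hmark w hwV hwne ?_
      rw [hεr]
      intro i
      refine Fin.cases ?_ (fun i => ?_) i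
      · unfold Pool.Agent.Helper41.LF.hx
        rw [if_pos rfl, hw0]
        push_cast
        rw [abs_of_nonneg (by positivity), ha]
        have h1 : q / B * b ≤ q := by
          rw [div_mul_eq_mul_div, div_le_iff₀ (by positivity)]
          gcongr
        linarith
      · unfold Pool.Agent.Helper41.LF.hx
        rw [if_neg (Fin.succ_ne_zero i), hw0, hws]
        have h1 := hs i
        push_cast
        rw [Fin.val_succ, abs_mul, abs_of_pos hK0]
        have h2 : K * |(b : ℝ) * x ^ ((i : ℕ) + 1) - s i| ≤ K * τ := by gcongr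
        have h3 : K * τ = q := by rw [hK]; field_simp
        linarith
    refine (measure_mono hincl).trans (hndc.trans (ENNReal.ofReal_le_ofReal ?_))
    have h1 : (ε * N0) ^ (1 / (D : ℝ)) ≤ (2 * c1 * N0) * q ^ (1 / (D : ℝ)) := by
      have h2 : ε * N0 = (2 * c1 * N0) * q := by rw [hε]; ring
      rw [h2, Real.mul_rpow (by positivity) hq0.le]
      have h3 : (2 * c1 * N0) ^ (1 / (D : ℝ)) ≤ (2 * c1 * N0) ^ (1 : ℝ) := by
        apply Real.rpow_le_rpow_of_exponent_le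
        · nlinarith
        · rw [div_le_one (by positivity)]; exact hDR
      rw [Real.rpow_one] at h3
      gcongr
    have h5 : 0 ≤ q ^ (1 / (D : ℝ)) := by positivity
    have h6 : δ ≤ C0 * ((2 * c1 * N0) * q ^ (1 / (D : ℝ))) := by rw [hδ]; gcongr
    have h7 : (2 : ℝ) ^ (d + 1 + 1) - 2 ≤ 2 ^ (d + 2) := by linarith
    have h8 : (0 : ℝ) ≤ 2 ^ (d + 1 + 1) - 2 := by
      have : (2 : ℝ) ^ 1 ≤ 2 ^ (d + 1 + 1) := pow_le_pow_right₀ (by norm_num) (by omega)
      linarith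
    calc (2 ^ (d + 1 + 1) - 2) * δ * (R' - -R')
        ≤ 2 ^ (d + 2) * (C0 * ((2 * c1 * N0) * q ^ (1 / (D : ℝ)))) * (2 * R') := by
          have h9 : R' - -R' = 2 * R' := by ring
          rw [h9]
          gcongr
      _ = (2 ^ (d + 2) * C0 * (2 * c1 * N0) * (2 * R')) * q ^ (1 / (D : ℝ)) := by ring
      _ ≤ (4 * R * c1 + 2 ^ (d + 2) * C0 * (2 * c1 * N0) * (2 * R')) * q ^ (1 / (D : ℝ)) := by
          gcongr
          have : 0 ≤ 4 * R * c1 := by positivity
          linarith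

end Pool.Agent.Helper41.LF
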